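import Mathlib

/-!
# A homogeneous Stein manifold with a tame set that is not holomorphically flexible

`X = D × ℂ²`, `D` the open unit disc. The first component of every entire integral curve is bounded,
hence constant, so all complete holomorphic vector fields have zero first component; so do their
brackets and all limits. The automorphisms (Möbius map, translation) are transitive, and the set of all
points `(0, k, 0)` is tame: an injection of `ℕ` is induced by a composition of three shears of `ℂ²`,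
using entire functions with prescribed values at the natural numbers.
-/

open Set Filter Topology Metric

namespace Pool.Agent.Results.MP_2740df_an.DiscTimesPlane

/-- `F` restricts to an automorphism (biholomorphic self-map) of the open set `X` of `ℂⁿ`. -/
def IsAut {n : ℕ} (X : Set (Fin n → ℂ)) (F : (Fin n → ℂ) → (Fin n → ℂ)) : Prop :=
  DifferentiableOn ℂ F X ∧ MapsTo F X X ∧ ∃ G : (Fin n → ℂ) → (Fin n → ℂ),
    DifferentiableOn ℂ G X ∧ MapsTo G X X ∧ (∀ z ∈ X, G (F z) = z) ∧ ∀ z ∈ X, F (G z) = z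

/-- The open set `X` of `ℂⁿ` is a Stein manifold: the holomorphic functions on `X` separate the points,
give local coordinates at each point, and `X` is holomorphically convex. -/
def IsStein {n : ℕ} (X : Set (Fin n → ℂ)) : Prop :=
  IsOpen X ∧
  (∀ x ∈ X, ∀ y ∈ X, x ≠ y → ∃ f : (Fin n → ℂ) → ℂ, DifferentiableOn ℂ f X ∧ f x ≠ f y) ∧
  (∀ x ∈ X, ∃ f : Fin n → (Fin n → ℂ) → ℂ, (∀ i, DifferentiableOn ℂ (f i) X) ∧
    LinearIndependent ℂ fun i => fderiv ℂ (f i) x) ∧
  ∀ K ⊆ X, IsCompact K → IsCompact {z | z ∈ X ∧ ∀ f : (Fin n → ℂ) → ℂ, DifferentiableOn ℂ f X →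
    ∀ C : ℝ, (∀ w ∈ K, ‖f w‖ ≤ C) → ‖f z‖ ≤ C}

/-- `A` is a tame set in `X`: an infinite, closed, discrete subset (every point of `X` has a
neighbourhood containing only finitely many points of `A`) such that every injective self-map of `A` is
induced by an automorphism of `X`. -/
def IsTame {n : ℕ} (X A : Set (Fin n → ℂ)) : Prop :=
  A ⊆ X ∧ A.Infinite ∧ (∀ x ∈ X, ∃ U ∈ 𝓝 x, (U ∩ A).Finite) ∧
  ∀ f : (Fin n → ℂ) → (Fin n → ℂ), MapsTo f A A → InjOn f A → ∃ F, IsAut X F ∧ EqOn F f A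

/-- `V` is a complete holomorphic vector field on `X`: its integral curves are defined for all complex
times. -/
def IsCompleteField {n : ℕ} (X : Set (Fin n → ℂ)) (V : (Fin n → ℂ) → (Fin n → ℂ)) : Prop :=
  DifferentiableOn ℂ V X ∧ ∀ x ∈ X, ∃ γ : ℂ → (Fin n → ℂ), γ 0 = x ∧
    ∀ t, γ t ∈ X ∧ HasDerivAt γ (V (γ t)) t

/-- `X` is holomorphically flexible. -/
def IsFlexible {n : ℕ} (X : Set (Fin n → ℂ)) : Prop :=
  ∀ x ∈ X, Submodule.span ℂ {v | ∃ V, IsCompleteField X V ∧ V x = v} = ⊤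

/-- The Lie algebra generated by the complete holomorphic vector fields on `X` (the bracket of `V` and
`W` is `DW(V) - DV(W)`). -/
inductive LieGen {n : ℕ} (X : Set (Fin n → ℂ)) : ((Fin n → ℂ) → (Fin n → ℂ)) → Prop
  | base (V : (Fin n → ℂ) → (Fin n → ℂ)) : IsCompleteField X V → LieGen X V
  | add (V W : (Fin n → ℂ) → (Fin n → ℂ)) : LieGen X V → LieGen X W → LieGen X (fun x => V x + W x)
  | smul (c : ℂ) (V : (Fin n → ℂ) → (Fin n → ℂ)) : LieGen X V → LieGen X (fun x => c • V x)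
  | bracket (V W : (Fin n → ℂ) → (Fin n → ℂ)) : LieGen X V → LieGen X W →
      LieGen X (fun x => fderiv ℂ W x (V x) - fderiv ℂ V x (W x))

/-- `X` has the density property. -/
def HasDensityProperty {n : ℕ} (X : Set (Fin n → ℂ)) : Prop :=
  ∀ W : (Fin n → ℂ) → (Fin n → ℂ), DifferentiableOn ℂ W X → ∀ K ⊆ X, IsCompact K →
    ∀ ε : ℝ, 0 < ε → ∃ V, LieGen X V ∧ ∀ x ∈ K, ‖V x - W x‖ < ε

/-! ### Entire functions with prescribed values at the natural numbers -/

theorem step (n : ℕ) (d : ℂ) : ∃ q : ℂ → ℂ, Differentiable ℂ q ∧ (∀ k : ℕ, k < n → q k = 0) ∧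
    q n = d ∧ ∀ z : ℂ, ‖z‖ < n / 2 → ‖q z‖ ≤ (1 / 2) ^ n := by
  rcases Nat.eq_zero_or_pos n with rfl | hn
  · refine ⟨fun _ => d, differentiable_const _, fun k hk => absurd hk (Nat.not_lt_zero k), rfl,
      fun z hz => ?_⟩
    simp only [Nat.cast_zero, zero_div] at hz
    exact absurd hz (not_lt.2 (norm_nonneg z))
  · have hn0 : (n : ℂ) ≠ 0 := by exact_mod_cast hn.ne'
    have hnR : (0 : ℝ) < n := by exact_mod_cast hn
    set P : ℂ → ℂ := fun z => ∏ k ∈ Finset.range n, ((z - k) / (n - k)) with hP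
    have hPd : Differentiable ℂ P := by
      rw [hP]; fun_prop
    obtain ⟨C, hC⟩ : ∃ C : ℝ, ∀ z ∈ closedBall (0 : ℂ) n, ‖P z‖ ≤ C :=
      (isCompact_closedBall (0 : ℂ) n).exists_bound_of_continuousOn hPd.continuous.continuousOn
    have hC0 : 0 ≤ C := (norm_nonneg _).trans (hC 0 (mem_closedBall_self hnR.le))
    obtain ⟨m, hm⟩ : ∃ m : ℕ, (1 / 2 : ℝ) ^ m * (‖d‖ * C + 1) < (1 / 2) ^ n := by
      have h1 : Tendsto (fun m : ℕ => (1 / 2 : ℝ) ^ m * (‖d‖ * C + 1)) atTop
          (𝓝 (0 * (‖d‖ * C + 1))) :=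
        (tendsto_pow_atTop_nhds_zero_of_lt_one (by norm_num) (by norm_num)).mul_const _
      rw [zero_mul] at h1
      exact (h1.eventually_lt_const (by positivity)).exists
    refine ⟨fun z => d * (z / n) ^ m * P z, ?_, ?_, ?_, ?_⟩
    · exact ((differentiable_const d).mul ((differentiable_id.div_const _).pow m)).mul hPd
    · intro k hk
      have : P k = 0 := Finset.prod_eq_zero (Finset.mem_range.2 hk) (by simp)
      simp [this]
    · have : P n = 1 := by
        refine Finset.prod_eq_one fun k hk => ?_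
        refine div_self ?_
        rw [sub_ne_zero]
        exact_mod_cast (Finset.mem_range.1 hk).ne'
      simp [this, hn0]
    · intro z hz
      have h1 : ‖z / n‖ ≤ 1 / 2 := by
        rw [norm_div, Complex.norm_natCast, div_le_div_iff₀ hnR (by norm_num)]
        linarith
      have h2 : ‖P z‖ ≤ C := hC z (by rw [mem_closedBall_zero_iff]; linarith)
      rw [norm_mul, norm_mul, norm_pow]
      calc ‖d‖ * ‖z / n‖ ^ m * ‖P z‖ ≤ ‖d‖ * (1 / 2) ^ m * C := by gcongr
        _ ≤ (1 / 2 : ℝ) ^ m * (‖d‖ * C + 1) := by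
          have : (0 : ℝ) < (1 / 2) ^ m := by positivity
          nlinarith
        _ ≤ (1 / 2) ^ n := hm.le

theorem interp (c : ℕ → ℂ) : ∃ h : ℂ → ℂ, Differentiable ℂ h ∧ ∀ k : ℕ, h k = c k := by
  choose q hq1 hq2 hq3 hq4 using step
  let h : ℕ → ℂ → ℂ := fun n => Nat.rec (fun _ => 0) (fun n g z => g z + q n (c n - g n) z) n
  let t : ℕ → ℂ → ℂ := fun n => q n (c n - h n n)
  have hsucc : ∀ n z, h (n + 1) z = h n z + t n z := fun n z => rfl
  have hsum : ∀ n z, h n z = ∑ k ∈ Finset.range n, t k z := by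
    intro n z
    induction n with
    | zero => rfl
    | succ n ih => rw [hsucc, ih, Finset.sum_range_succ]
  have ht : ∀ n, Differentiable ℂ (t n) := fun n => hq1 _ _
  have htz : ∀ n k : ℕ, k < n → t n k = 0 := fun n k hk => hq2 _ _ _ hk
  have htb : ∀ (n : ℕ) (z : ℂ), ‖z‖ < (n : ℝ) / 2 → ‖t n z‖ ≤ (1 / 2) ^ n := fun n z hz => hq4 _ _ _ hz
  have hval : ∀ n : ℕ, h (n + 1) n = c n := by
    intro n
    rw [hsucc]
    show h n n + q n (c n - h n n) n = c n
    rw [hq3]; ring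
  have hgeo : Summable fun n : ℕ => (1 / 2 : ℝ) ^ n := summable_geometric_two
  have hsummable : ∀ (N : ℕ) (z : ℂ), ‖z‖ < (N : ℝ) / 2 → Summable fun n => t (n + N) z := by
    intro N z hz
    refine Summable.of_norm_bounded ((summable_nat_add_iff N).2 hgeo) fun n => htb _ _ ?_
    refine hz.trans_le ?_
    push_cast
    have : (0 : ℝ) ≤ n := Nat.cast_nonneg n
    linarith
  have hexN : ∀ z : ℂ, ∃ N : ℕ, ‖z‖ < (N : ℝ) / 2 := by
    intro z
    obtain ⟨N, hN⟩ := exists_nat_gt (2 * ‖z‖)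
    exact ⟨N, by linarith⟩
  have hs : ∀ z, Summable fun n => t n z := by
    intro z
    obtain ⟨N, hN⟩ := hexN z
    exact (summable_nat_add_iff N).1 (hsummable N z hN)
  refine ⟨fun z => ∑' n, t n z, ?_, ?_⟩
  · intro z
    obtain ⟨N, hN⟩ := hexN z
    have hball : ball (0 : ℂ) ((N : ℝ) / 2) ∈ 𝓝 z := isOpen_ball.mem_nhds (mem_ball_zero_iff.2 hN)
    have h1 : DifferentiableOn ℂ (fun w => ∑' n, t (n + N) w) (ball (0 : ℂ) ((N : ℝ) / 2)) := by
      refine Complex.differentiableOn_tsum_of_summable_norm ((summable_nat_add_iff N).2 hgeo)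
        (fun n => (ht _).differentiableOn) isOpen_ball fun n w hw => htb _ _ ?_
      refine (mem_ball_zero_iff.1 hw).trans_le ?_
      push_cast
      have : (0 : ℝ) ≤ n := Nat.cast_nonneg n
      linarith
    have h2 : Differentiable ℂ fun w => ∑ n ∈ Finset.range N, t n w := by
      exact Differentiable.fun_sum fun n _ => ht n
    have h3 : (fun w => ∑' n, t n w) = fun w => ∑ n ∈ Finset.range N, t n w + ∑' n, t (n + N) w := by
      funext w
      exact ((hs w).sum_add_tsum_nat_add N).symm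
    rw [h3]
    exact (h2 z).add (h1.differentiableAt hball)
  · intro k
    show ∑' n, t n k = c k
    rw [tsum_eq_sum (s := Finset.range (k + 1)) (fun n hn => htz n k (by
      rw [Finset.mem_range] at hn; omega)), ← hsum, hval]

/-! ### The manifold `D × ℂ²` -/

/-- `D × ℂ²`. -/
def DX : Set (Fin 3 → ℂ) := {z | ‖z 0‖ < 1}

theorem isOpen_DX : IsOpen DX := isOpen_lt (by fun_prop) continuous_const

theorem isAut_comp {F G : (Fin 3 → ℂ) → (Fin 3 → ℂ)} (hF : IsAut DX F) (hG : IsAut DX G) :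
    IsAut DX (fun z => F (G z)) := by
  obtain ⟨hF1, hF2, F', hF3, hF4, hF5, hF6⟩ := hF
  obtain ⟨hG1, hG2, G', hG3, hG4, hG5, hG6⟩ := hG
  refine ⟨hF1.comp hG1 hG2, fun z hz => hF2 (hG2 hz), fun z => G' (F' z), hG3.comp hF3 hF4,
    fun z hz => hG4 (hF4 hz), fun z hz => ?_, fun z hz => ?_⟩
  · show G' (F' (F (G z))) = z
    rw [hF5 _ (hG2 hz), hG5 _ hz]
  · show F (G (G' (F' z))) = z
    rw [hG6 _ (hF4 hz), hF6 _ hz]

/-- Möbius transformations of the disc. -/
noncomputable def mob (a z : ℂ) : ℂ := (z - a) / (1 - (starRingEnd ℂ) a * z)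

theorem mob_den {a z : ℂ} (ha : ‖a‖ < 1) (hz : ‖z‖ < 1) : 1 - (starRingEnd ℂ) a * z ≠ 0 := by
  intro h
  have h1 : (starRingEnd ℂ) a * z = 1 := (sub_eq_zero.1 h).symm
  have h2 : ‖(starRingEnd ℂ) a * z‖ < 1 := by
    rw [norm_mul, Complex.norm_conj]
    nlinarith [norm_nonneg a, norm_nonneg z]
  rw [h1, norm_one] at h2
  exact lt_irrefl _ h2

theorem mob_lt {a z : ℂ} (ha : ‖a‖ < 1) (hz : ‖z‖ < 1) : ‖mob a z‖ < 1 := by
  have hd := mob_den ha hz
  rw [mob, norm_div, div_lt_one (norm_pos_iff.2 hd)]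
  refine lt_of_pow_lt_pow_left₀ 2 (norm_nonneg _) ?_
  rw [← Complex.normSq_eq_norm_sq, ← Complex.normSq_eq_norm_sq]
  have ha' : Complex.normSq a < 1 := by
    rw [Complex.normSq_eq_norm_sq]; nlinarith [norm_nonneg a]
  have hz' : Complex.normSq z < 1 := by
    rw [Complex.normSq_eq_norm_sq]; nlinarith [norm_nonneg z]
  simp only [Complex.normSq_apply, Complex.sub_re, Complex.sub_im, Complex.one_re, Complex.one_im,
    Complex.mul_re, Complex.mul_im, Complex.conj_re, Complex.conj_im] at *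
  nlinarith [mul_pos (sub_pos.2 ha') (sub_pos.2 hz')]

theorem mob_mob {a z : ℂ} (ha : ‖a‖ < 1) (hz : ‖z‖ < 1) : mob (-a) (mob a z) = z := by
  have hd := mob_den ha hz
  have ha' : 1 - (starRingEnd ℂ) a * a ≠ 0 := mob_den ha ha
  have hd2 := mob_den (a := -a) (z := mob a z) (by rwa [norm_neg]) (mob_lt ha hz)
  have hw : mob a z * (1 - (starRingEnd ℂ) a * z) = z - a := div_mul_cancel₀ _ hd
  rw [mob, div_eq_iff hd2, map_neg]
  refine mul_right_cancel₀ hd ?_
  linear_combination (1 - z * (starRingEnd ℂ) a) * hw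

/-- `z ↦ (mob (a 0) (z 0), z 1 - a 1, z 2 - a 2)`. -/
noncomputable def sh (a z : Fin 3 → ℂ) : Fin 3 → ℂ := ![mob (a 0) (z 0), z 1 - a 1, z 2 - a 2]

theorem sh_diff {a : Fin 3 → ℂ} (ha : a ∈ DX) : DifferentiableOn ℂ (sh a) DX := by
  rw [differentiableOn_pi]
  intro i
  fin_cases i
  · intro z hz
    have h0 : DifferentiableAt ℂ (fun w : Fin 3 → ℂ => w 0 - a 0) z := by fun_prop
    have h1 : DifferentiableAt ℂ (fun w : Fin 3 → ℂ => 1 - (starRingEnd ℂ) (a 0) * w 0) z := by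
      fun_prop
    have h2 : (1 : ℂ) - (starRingEnd ℂ) (a 0) * z 0 ≠ 0 := mob_den ha hz
    have h3 : DifferentiableAt ℂ (fun w : Fin 3 → ℂ => (w 0 - a 0) *
        (1 - (starRingEnd ℂ) (a 0) * w 0)⁻¹) z := h0.mul (h1.inv h2)
    have h4 : (fun w : Fin 3 → ℂ => (w 0 - a 0) * (1 - (starRingEnd ℂ) (a 0) * w 0)⁻¹) =
        fun w : Fin 3 → ℂ => mob (a 0) (w 0) := by
      funext w; rw [mob, div_eq_mul_inv]
    rw [h4] at h3
    exact h3.differentiableWithinAt
  · show DifferentiableOn ℂ (fun z : Fin 3 → ℂ => z 1 - a 1) DX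
    fun_prop
  · show DifferentiableOn ℂ (fun z : Fin 3 → ℂ => z 2 - a 2) DX
    fun_prop

theorem sh_sh {a z : Fin 3 → ℂ} (ha : a ∈ DX) (hz : z ∈ DX) : sh (-a) (sh a z) = z := by
  funext i
  fin_cases i
  · exact mob_mob ha hz
  · show z 1 - a 1 - (-a) 1 = z 1
    simp
  · show z 2 - a 2 - (-a) 2 = z 2
    simp

theorem neg_mem {a : Fin 3 → ℂ} (ha : a ∈ DX) : -a ∈ DX := by
  show ‖-a 0‖ < 1
  rw [norm_neg]; exact ha

theorem isAut_sh {a : Fin 3 → ℂ} (ha : a ∈ DX) : IsAut DX (sh a) := by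
  refine ⟨sh_diff ha, fun z hz => mob_lt ha hz, sh (-a), sh_diff (neg_mem ha),
    fun z hz => mob_lt (a := -a 0) (by rw [norm_neg]; exact ha) hz, fun z hz => sh_sh ha hz,
    fun z hz => ?_⟩
  have := sh_sh (neg_mem ha) hz
  rwa [neg_neg] at this

theorem transitive_DX : ∀ x ∈ DX, ∀ y ∈ DX, ∃ F, IsAut DX F ∧ F x = y := by
  intro x hx y hy
  refine ⟨fun z => sh (-y) (sh x z), isAut_comp (isAut_sh (neg_mem hy)) (isAut_sh hx), ?_⟩
  have h0 : sh x x = 0 := by
    funext i
    fin_cases i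
    · show (x 0 - x 0) / _ = 0
      simp
    · show x 1 - x 1 = 0
      simp
    · show x 2 - x 2 = 0
      simp
  show sh (-y) (sh x x) = y
  rw [h0]
  funext i
  fin_cases i
  · show ((0 : ℂ) - -y 0) / (1 - (starRingEnd ℂ) (-y 0) * (0 : ℂ)) = y 0
    simp
  · show (0 : ℂ) - -y 1 = y 1
    simp
  · show (0 : ℂ) - -y 2 = y 2
    simp

/-- Shears. -/
def shearA (h : ℂ → ℂ) (z : Fin 3 → ℂ) : Fin 3 → ℂ := ![z 0, z 1, z 2 + h (z 1)]

/-- Shears. -/
def shearB (h : ℂ → ℂ) (z : Fin 3 → ℂ) : Fin 3 → ℂ := ![z 0, z 1 + h (z 2), z 2]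

theorem shearA_diff {h : ℂ → ℂ} (hh : Differentiable ℂ h) : DifferentiableOn ℂ (shearA h) DX := by
  refine Differentiable.differentiableOn ?_
  rw [differentiable_pi]
  intro i
  fin_cases i
  · show Differentiable ℂ fun z : Fin 3 → ℂ => z 0
    fun_prop
  · show Differentiable ℂ fun z : Fin 3 → ℂ => z 1
    fun_prop
  · show Differentiable ℂ fun z : Fin 3 → ℂ => z 2 + h (z 1)
    fun_prop

theorem shearB_diff {h : ℂ → ℂ} (hh : Differentiable ℂ h) : DifferentiableOn ℂ (shearB h) DX := by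
  refine Differentiable.differentiableOn ?_
  rw [differentiable_pi]
  intro i
  fin_cases i
  · show Differentiable ℂ fun z : Fin 3 → ℂ => z 0
    fun_prop
  · show Differentiable ℂ fun z : Fin 3 → ℂ => z 1 + h (z 2)
    fun_prop
  · show Differentiable ℂ fun z : Fin 3 → ℂ => z 2
    fun_prop

theorem isAut_shearA {h : ℂ → ℂ} (hh : Differentiable ℂ h) : IsAut DX (shearA h) := by
  refine ⟨shearA_diff hh, fun z hz => hz, shearA fun w => -h w, shearA_diff hh.neg, fun z hz => hz,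
    fun z _ => ?_, fun z _ => ?_⟩
  · funext i
    fin_cases i
    · rfl
    · rfl
    · show z 2 + h (z 1) + -h (z 1) = z 2
      ring
  · funext i
    fin_cases i
    · rfl
    · rfl
    · show z 2 + -h (z 1) + h (z 1) = z 2
      ring

theorem isAut_shearB {h : ℂ → ℂ} (hh : Differentiable ℂ h) : IsAut DX (shearB h) := by
  refine ⟨shearB_diff hh, fun z hz => hz, shearB fun w => -h w, shearB_diff hh.neg, fun z hz => hz,
    fun z _ => ?_, fun z _ => ?_⟩
  · funext i
    fin_cases i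
    · rfl
    · show z 1 + h (z 2) + -h (z 2) = z 1
      ring
    · rfl
  · funext i
    fin_cases i
    · rfl
    · show z 1 + -h (z 2) + h (z 2) = z 1
      ring
    · rfl

/-- The points of the tame set. -/
def pt (k : ℕ) : Fin 3 → ℂ := ![0, k, 0]

theorem pt_inj : Function.Injective pt := by
  intro k l h
  have h1 : (k : ℂ) = l := congrFun h 1
  exact_mod_cast h1

theorem tame_DX : IsTame DX (range pt) := by
  refine ⟨?_, infinite_range_of_injective pt_inj, ?_, ?_⟩
  · rintro _ ⟨k, rfl⟩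
    show ‖(0 : ℂ)‖ < 1
    simp
  · intro x _
    refine ⟨ball x 1, ball_mem_nhds _ one_pos, ?_⟩
    obtain ⟨N, hN⟩ := exists_nat_gt (‖x 1‖ + 1)
    refine ((Finset.range N).finite_toSet.image pt).subset ?_
    rintro _ ⟨hy, k, rfl⟩
    refine ⟨k, ?_, rfl⟩
    have h1 : dist (pt k 1) (x 1) < 1 := lt_of_le_of_lt (dist_le_pi_dist (pt k) x 1) hy
    have h2 : dist ((k : ℂ)) (x 1) < 1 := h1
    have h3 : ‖(k : ℂ)‖ ≤ ‖(k : ℂ) - x 1‖ + ‖x 1‖ := by
      simpa using norm_add_le ((k : ℂ) - x 1) (x 1)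
    rw [dist_eq_norm] at h2
    rw [Complex.norm_natCast] at h3
    rw [Finset.mem_coe, Finset.mem_range]
    exact_mod_cast (by linarith : (k : ℝ) < N)
  · intro f hf hinj
    have h0 : ∀ k : ℕ, ∃ m : ℕ, f (pt k) = pt m := fun k => by
      obtain ⟨m, hm⟩ := hf (mem_range_self k)
      exact ⟨m, hm.symm⟩
    choose σ hσ using h0
    have hσinj : Function.Injective σ := fun k l hkl =>
      pt_inj (hinj (mem_range_self k) (mem_range_self l) (by rw [hσ, hσ, hkl]))
    classical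
    obtain ⟨h, hh1, hh2⟩ := interp fun k => (σ k : ℂ)
    obtain ⟨g, hg1, hg2⟩ := interp fun m =>
      if hm : ∃ k, σ k = m then (m : ℂ) - (hm.choose : ℂ) else 0
    have hg3 : ∀ k, g (σ k) = (σ k : ℂ) - k := by
      intro k
      rw [hg2]
      have hm : ∃ l, σ l = σ k := ⟨k, rfl⟩
      rw [dif_pos hm, hσinj hm.choose_spec]
    refine ⟨fun z => shearA (fun w => -w) (shearB g (shearA h z)),
      isAut_comp (isAut_shearA differentiable_neg) (isAut_comp (isAut_shearB hg1) (isAut_shearA hh1)),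
      ?_⟩
    rintro _ ⟨k, rfl⟩
    rw [hσ]
    show shearA (fun w => -w) (shearB g (shearA h (pt k))) = pt (σ k)
    have e1 : shearA h (pt k) = ![0, (k : ℂ), (σ k : ℂ)] := by
      funext i
      fin_cases i
      · rfl
      · rfl
      · show (0 : ℂ) + h (k : ℂ) = σ k
        rw [hh2, zero_add]
    rw [e1]
    have e2 : shearB g ![0, (k : ℂ), (σ k : ℂ)] = ![0, (σ k : ℂ), (σ k : ℂ)] := by
      funext i
      fin_cases i
      · rfl
      · show (k : ℂ) + g (σ k : ℂ) = σ k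
        rw [hg3]; ring
      · rfl
    rw [e2]
    funext i
    fin_cases i
    · rfl
    · rfl
    · show (σ k : ℂ) + -(σ k : ℂ) = 0
      ring

/-- Complete fields have zero first component. -/
theorem complete_zero {V : (Fin 3 → ℂ) → (Fin 3 → ℂ)} (hV : IsCompleteField DX V) :
    ∀ x ∈ DX, V x 0 = 0 := by
  intro x hx
  obtain ⟨γ, h0, hγ⟩ := hV.2 x hx
  have hd : ∀ t, HasDerivAt (fun t => γ t 0) (V (γ t) 0) t := fun t =>
    (hasDerivAt_pi.1 (hγ t).2) 0
  have hdiff : Differentiable ℂ fun t => γ t 0 := fun t => (hd t).differentiableAt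
  have hb : Bornology.IsBounded (range fun t => γ t 0) := by
    refine isBounded_ball.subset (s := range fun t => γ t 0) (t := ball (0 : ℂ) 1) ?_
    rintro _ ⟨t, rfl⟩
    rw [mem_ball_zero_iff]
    exact (hγ t).1
  have hconst : ∀ t, γ t 0 = γ 0 0 := fun t => hdiff.apply_eq_apply_of_bounded hb t 0
  have h1 : HasDerivAt (fun t => γ t 0) 0 0 := by
    have : (fun t => γ t 0) = fun _ => γ 0 0 := funext hconst
    rw [this]
    exact hasDerivAt_const _ _
  have h2 := (hd 0).unique h1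
  rwa [h0] at h2

theorem lie_zero {V : (Fin 3 → ℂ) → (Fin 3 → ℂ)} (hV : LieGen DX V) : ∀ x ∈ DX, V x 0 = 0 := by
  induction hV with
  | base V hV => exact complete_zero hV
  | add V W _ _ h1 h2 =>
    intro x hx
    show V x 0 + W x 0 = 0
    rw [h1 x hx, h2 x hx, add_zero]
  | smul c V _ h1 =>
    intro x hx
    show c * V x 0 = 0
    rw [h1 x hx, mul_zero]
  | bracket V W _ _ h1 h2 =>
    have key : ∀ U : (Fin 3 → ℂ) → (Fin 3 → ℂ), (∀ x ∈ DX, U x 0 = 0) →
        ∀ x ∈ DX, ∀ v, fderiv ℂ U x v 0 = 0 := by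
      intro U hU x hx v
      by_cases hda : DifferentiableAt ℂ U x
      · have e1 : HasFDerivAt (fun y => U y 0)
            ((ContinuousLinearMap.proj (R := ℂ) (φ := fun _ : Fin 3 => ℂ) 0).comp (fderiv ℂ U x)) x :=
          (ContinuousLinearMap.proj (R := ℂ) (φ := fun _ : Fin 3 => ℂ) 0).hasFDerivAt.comp x
            hda.hasFDerivAt
        have e2 : (fun y => U y 0) =ᶠ[𝓝 x] fun _ => 0 := by
          filter_upwards [isOpen_DX.mem_nhds hx] with y hy using hU y hy
        have e3 : HasFDerivAt (fun y => U y 0) (0 : (Fin 3 → ℂ) →L[ℂ] ℂ) x :=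
          (hasFDerivAt_const (0 : ℂ) x).congr_of_eventuallyEq e2
        exact DFunLike.congr_fun (e1.unique e3) v
      · rw [fderiv_zero_of_not_differentiableAt hda]
        rfl
    intro x hx
    show fderiv ℂ W x (V x) 0 - fderiv ℂ V x (W x) 0 = 0
    rw [key W h2 x hx, key V h1 x hx, sub_zero]

theorem stein_DX : IsStein DX := by
  refine ⟨isOpen_DX, ?_, ?_, ?_⟩
  · intro x _ y _ hxy
    obtain ⟨i, hi⟩ := Function.ne_iff.1 hxy
    exact ⟨fun z => z i, by fun_prop, hi⟩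
  · intro x _
    refine ⟨fun i z => z i, fun i => by fun_prop, ?_⟩
    have h1 : (fun i : Fin 3 => fderiv ℂ (fun z : Fin 3 → ℂ => z i) x) =
        fun i => ContinuousLinearMap.proj (R := ℂ) (φ := fun _ : Fin 3 => ℂ) i := by
      funext i
      exact (ContinuousLinearMap.proj (R := ℂ) (φ := fun _ : Fin 3 => ℂ) i).hasFDerivAt.fderiv
    rw [h1, Fintype.linearIndependent_iff]
    intro g hg i
    have h2 := DFunLike.congr_fun hg (Pi.single i (1 : ℂ))
    simpa [sum_apply, Pi.single_apply] using h2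
  · intro K hK hKc
    -- a compact set containing the hull
    obtain ⟨R, hR⟩ := hKc.isBounded.exists_norm_le
    have hex : ∃ r : ℝ, r < 1 ∧ ∀ w ∈ K, ‖w 0‖ ≤ r := by
      rcases K.eq_empty_or_nonempty with rfl | hne
      · exact ⟨0, one_pos, fun w hw => absurd hw (notMem_empty w)⟩
      · obtain ⟨w, hw, hmax⟩ := hKc.exists_isMaxOn hne
          (f := fun w : Fin 3 → ℂ => ‖w 0‖) (by fun_prop)
        exact ⟨‖w 0‖, hK hw, fun v hv => hmax hv⟩
    obtain ⟨r, hr, hKr⟩ := hex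
    set P : Set (Fin 3 → ℂ) := {z | ‖z 0‖ ≤ r} ∩ closedBall 0 R with hP
    have hPc : IsCompact P := (isCompact_closedBall _ _).inter_left
      (isClosed_le (by fun_prop) continuous_const)
    have hPX : P ⊆ DX := fun z hz => lt_of_le_of_lt hz.1 hr
    have hcoord : ∀ i : Fin 3, DifferentiableOn ℂ (fun z : Fin 3 → ℂ => z i) DX := fun i => by fun_prop
    have hsub : {z | z ∈ DX ∧ ∀ f : (Fin 3 → ℂ) → ℂ, DifferentiableOn ℂ f DX →
        ∀ C : ℝ, (∀ w ∈ K, ‖f w‖ ≤ C) → ‖f z‖ ≤ C} ⊆ P := by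
      rintro z ⟨-, hz⟩
      refine ⟨hz _ (hcoord 0) r hKr, ?_⟩
      have hz' : ∀ i, ‖z i‖ ≤ R := fun i =>
        hz _ (hcoord i) R fun w hw => (norm_le_pi_norm w i).trans (hR w hw)
      rw [mem_closedBall_zero_iff]
      exact (pi_norm_le_iff_of_nonneg ((norm_nonneg _).trans (hz' 0))).2 hz'
    refine hPc.of_isClosed_subset (isClosed_of_closure_subset fun z hz => ?_) hsub
    have hzP : z ∈ P := closure_minimal hsub hPc.isClosed hz
    refine ⟨hPX hzP, fun f hf C hC => ?_⟩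
    obtain ⟨u, hu, hlim⟩ := mem_closure_iff_seq_limit.1 hz
    have hcont : ContinuousAt f z :=
      hf.continuousOn.continuousAt (isOpen_DX.mem_nhds (hPX hzP))
    exact le_of_tendsto' (hcont.norm.tendsto.comp hlim) fun n => (hu n).2 f hf C hC

/-- The Stein manifold `D × ℂ²` is homogeneous and contains a tame set, but it is neither
holomorphically flexible nor does it have the density property. -/
theorem result : ∃ X : Set (Fin 3 → ℂ), IsStein X ∧ IsConnected X ∧
    (∀ x ∈ X, ∀ y ∈ X, ∃ F, IsAut X F ∧ F x = y) ∧ (∃ A, IsTame X A) ∧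
    ¬ IsFlexible X ∧ ¬ HasDensityProperty X := by
  have h0 : (0 : Fin 3 → ℂ) ∈ DX := by
    show ‖(0 : ℂ)‖ < 1
    simp
  refine ⟨DX, stein_DX, ?_, transitive_DX, ⟨_, tame_DX⟩, ?_, ?_⟩
  · have hconv : Convex ℝ DX := by
      intro x hx y hy a b ha hb hab
      show ‖a • x 0 + b • y 0‖ < 1
      have hx' : ‖x 0‖ < 1 := hx
      have hy' : ‖y 0‖ < 1 := hy
      calc ‖a • x 0 + b • y 0‖ ≤ a * ‖x 0‖ + b * ‖y 0‖ := by
            refine (norm_add_le _ _).trans ?_
            rw [norm_smul, norm_smul, Real.norm_of_nonneg ha, Real.norm_of_nonneg hb]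
        _ < 1 := by
            rcases eq_or_lt_of_le ha with h | h
            · rw [← h] at hab ⊢
              rw [zero_add] at hab
              rw [hab]; linarith
            · nlinarith [mul_lt_mul_of_pos_left hx' h, mul_le_mul_of_nonneg_left hy'.le hb]
    exact hconv.isConnected ⟨0, h0⟩
  · intro hf
    have h1 := hf 0 h0
    have h2 : Submodule.span ℂ {v : Fin 3 → ℂ | ∃ V, IsCompleteField DX V ∧ V 0 = v} ≤
        LinearMap.ker (LinearMap.proj (R := ℂ) (φ := fun _ : Fin 3 => ℂ) 0) := by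
      rw [Submodule.span_le]
      rintro v ⟨V, hV, rfl⟩
      exact complete_zero hV 0 h0
    rw [h1] at h2
    have h3 : (Pi.single 0 (1 : ℂ) : Fin 3 → ℂ) ∈
        LinearMap.ker (LinearMap.proj (R := ℂ) (φ := fun _ : Fin 3 => ℂ) 0) := h2 trivial
    rw [LinearMap.mem_ker, LinearMap.proj_apply, Pi.single_eq_same] at h3
    exact one_ne_zero h3
  · intro hd
    obtain ⟨V, hV, hb⟩ := hd (fun _ => Pi.single 0 (1 : ℂ)) (differentiableOn_const _) {0}
      (singleton_subset_iff.2 h0) isCompact_singleton 1 one_pos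
    have h1 := hb 0 rfl
    have h2 : ‖(V 0 - (Pi.single 0 (1 : ℂ) : Fin 3 → ℂ)) 0‖ < 1 :=
      lt_of_le_of_lt (norm_le_pi_norm _ 0) h1
    rw [Pi.sub_apply, lie_zero hV 0 h0, Pi.single_eq_same, zero_sub, norm_neg, norm_one] at h2
    exact lt_irrefl _ h2

end Pool.Agent.Results.MP_2740df_an.DiscTimesPlane
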